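import Pool.Agent.Lib.MP_21db80_an.H39Between

namespace Pool.Agent.Lib.MP_21db80_an.Variants.Q1

open Pool.Agent.Lib.MP_21db80_an

/-- For every element of `Per_4(0)^*` the augmented deformation space is disconnected, and so is
every set `T` between the deformation space (the points of `AD` on curves with one component)
and `AD`. The case `T = AD f A B` is the question. -/
theorem result : ∀ (f : Sph → Sph) (c c' : Sph) (A B : Set Sph), Per4 f c c' →
    A = Set.range (fun i : ℕ => f^[i] c) → B = insert (f c') A →
    ∀ T : Set (AT B),
      {τ ∈ AD f A B | ∃ m : {m : Marking B // Stable m}, τ = Quot.mk _ m ∧ m.1.k = 1} ⊆ T →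
      T ⊆ AD f A B → ¬ @IsPreconnected _ (bers B) T := by
  rintro f c c' _ _ h rfl rfl
  exact per4_mainD h (Set.subset_insert _ _) (Set.mem_insert _ _)

end Pool.Agent.Lib.MP_21db80_an.Variants.Q1
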